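import Pool.Agent.Helper70.EH.Goals3

/-!
# Project EH, part 3, packet BU: upper bound of the sum of the `k_J^M`
-/

set_option autoImplicit false

namespace Pool.Agent.Helper78.EH.BU

open Pool.Agent.Helper70.KN Pool.Agent.Helper70.EQ Pool.Agent.Helper70.EH

/-- Weierstrass' inequality. -/
theorem weier {ι : Type*} (S : Finset ι) (a : ι → ℝ) (h0 : ∀ i, 0 ≤ a i) (h1 : ∀ i, a i ≤ 1) :
    1 - ∑ i ∈ S, a i ≤ ∏ i ∈ S, (1 - a i) := by
  classical
  induction S using Finset.induction_on with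
  | empty => simp
  | insert b S hb ih =>
    rw [Finset.sum_insert hb, Finset.prod_insert hb]
    have hp : ∏ i ∈ S, (1 - a i) ≤ 1 :=
      Finset.prod_le_one (fun i _ => by linarith [h1 i]) (fun i _ => by linarith [h0 i])
    have h2 := h0 b
    have h3 := h1 b
    nlinarith [mul_nonneg h2 (sub_nonneg.2 hp)]

theorem exp_quarter : Real.exp (1 / 4) ≤ 4 / 3 := by
  have h := Real.add_one_le_exp (-(1 / 4 : ℝ))
  rw [Real.exp_neg] at h
  have hp := Real.exp_pos (1 / 4 : ℝ)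
  have h2 : (3 / 4 : ℝ) * Real.exp (1 / 4) ≤ 1 := by
    have h3 : (3 / 4 : ℝ) ≤ (Real.exp (1 / 4))⁻¹ := by linarith
    calc (3 / 4 : ℝ) * Real.exp (1 / 4) ≤ (Real.exp (1 / 4))⁻¹ * Real.exp (1 / 4) :=
          mul_le_mul_of_nonneg_right h3 hp.le
      _ = 1 := inv_mul_cancel₀ hp.ne'
  linarith

theorem t : G_BU := by
  classical
  intro r M k hr hk hM hsum
  set K : ℝ := ∑ j, (k j : ℝ) with hK
  have hk1 : ∀ i, (1 : ℝ) ≤ k i := fun i => by exact_mod_cast hk i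
  have hkK : ∀ i, (k i : ℝ) ≤ K := fun i =>
    Finset.single_le_sum (f := fun j => (k j : ℝ)) (fun j _ => Nat.cast_nonneg _)
      (Finset.mem_univ i)
  have hKpos : 0 < K := by
    have := hkK ⟨0, by omega⟩
    linarith [hk1 ⟨0, by omega⟩]
  set a : Fin r → ℝ := fun i => k i / K with ha
  have ha0 : ∀ i, 0 ≤ a i := fun i => div_nonneg (Nat.cast_nonneg _) hKpos.le
  have ha1 : ∀ i, a i ≤ 1 := fun i => (div_le_one hKpos).2 (hkK i)
  have hy : ∀ i, (1 - a i) ^ M = (K - k i) ^ M / K ^ M := by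
    intro i
    rw [← div_pow]
    congr 1
    rw [ha]
    field_simp
  have hKM : 0 < K ^ M := pow_pos hKpos M
  have hys : ∑ i, (1 - a i) ^ M ≤ 1 / 4 := by
    simp only [hy]
    rw [← Finset.sum_div, div_le_iff₀ hKM]
    linarith
  have hJ : ∀ J : Finset (Fin r),
      (∑ i ∈ J, (k i : ℝ)) ^ M ≤ K ^ M * ∏ i ∈ Finset.univ \ J, (1 - a i) ^ M := by
    intro J
    have h1 : ∑ i ∈ J, (k i : ℝ) = K * (1 - ∑ i ∈ Finset.univ \ J, a i) := by
      have h2 : ∑ i ∈ Finset.univ \ J, (k i : ℝ) + ∑ i ∈ J, (k i : ℝ) = K :=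
        Finset.sum_sdiff (Finset.subset_univ J)
      have h3 : K * ∑ i ∈ Finset.univ \ J, a i = ∑ i ∈ Finset.univ \ J, (k i : ℝ) := by
        rw [Finset.mul_sum]
        refine Finset.sum_congr rfl fun i _ => ?_
        rw [ha]
        field_simp
      rw [mul_sub, h3, mul_one]
      linarith
    have h4 : ∑ i ∈ J, (k i : ℝ) ≤ K * ∏ i ∈ Finset.univ \ J, (1 - a i) := by
      rw [h1]
      exact mul_le_mul_of_nonneg_left (weier _ a ha0 ha1) hKpos.le
    calc (∑ i ∈ J, (k i : ℝ)) ^ M ≤ (K * ∏ i ∈ Finset.univ \ J, (1 - a i)) ^ M :=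
          pow_le_pow_left₀ (Finset.sum_nonneg fun i _ => Nat.cast_nonneg _) h4 M
      _ = K ^ M * ∏ i ∈ Finset.univ \ J, (1 - a i) ^ M := by
          rw [mul_pow, Finset.prod_pow]
  have hprod : ∏ i, (1 + (1 - a i) ^ M) ≤ 4 / 3 := by
    calc ∏ i, (1 + (1 - a i) ^ M) ≤ ∏ i, Real.exp ((1 - a i) ^ M) := by
          refine Finset.prod_le_prod (fun i _ => ?_) (fun i _ => ?_)
          · have : 0 ≤ (1 - a i) ^ M := pow_nonneg (by linarith [ha1 i]) M
            linarith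
          · linarith [Real.add_one_le_exp ((1 - a i) ^ M)]
      _ = Real.exp (∑ i, (1 - a i) ^ M) := (Real.exp_sum _ _).symm
      _ ≤ Real.exp (1 / 4) := Real.exp_le_exp.2 hys
      _ ≤ 4 / 3 := exp_quarter
  unfold bk
  calc ∑ J ∈ Finset.univ.filter (fun J : Finset (Fin r) => J.Nonempty), (∑ i ∈ J, (k i : ℝ)) ^ M
      ≤ ∑ J : Finset (Fin r), (∑ i ∈ J, (k i : ℝ)) ^ M :=
        Finset.sum_le_sum_of_subset_of_nonneg (Finset.filter_subset _ _) fun J _ _ =>
          pow_nonneg (Finset.sum_nonneg fun i _ => Nat.cast_nonneg _) M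
    _ ≤ ∑ J : Finset (Fin r), K ^ M * ∏ i ∈ Finset.univ \ J, (1 - a i) ^ M :=
        Finset.sum_le_sum fun J _ => hJ J
    _ = K ^ M * ∏ i, (1 + (1 - a i) ^ M) := by
        rw [Finset.prod_add, Finset.powerset_univ, Finset.mul_sum]
        refine Finset.sum_congr rfl fun J _ => ?_
        rw [Finset.prod_const_one, one_mul]
    _ ≤ K ^ M * (4 / 3) := mul_le_mul_of_nonneg_left hprod hKM.le
    _ = 4 / 3 * K ^ M := mul_comm _ _

end Pool.Agent.Helper78.EH.BU
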